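import Mathlib
import Pool.Agent.Helper522.Kos.Final

/-!
# Linearity over Koszul algebras is undecidable

For modules generated in degree `0` and concentrated in degrees `0` and `1` over Koszul algebras,
no algorithm decides whether the regularity is `0` (the resolution is linear); this holds over
every field, and already over one fixed Koszul algebra.
The definitions used in the statement are in `Pool/Agent/Helper522/Kos/Defs.lean`.
-/

set_option autoImplicit false

namespace Pool.Agent.Results.MP_fc7d68_al.Undecidable

open Pool.Agent.Helper522.Kos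

/-- The partial function `f` decides, over the field `K`, whether the regularity of the input is
`0`: on every input of the kind considered it halts, with the value `true` if the regularity is
`0` and with the value `false` otherwise. -/
def Decides (K : Type) [Field K] (f : RingCode × ModCode →. Bool) : Prop :=
  ∀ c : RingCode × ModCode, Valid K c.1 c.2 →
    (HasReg K c.1 c.2 0 → true ∈ f c) ∧ (¬ HasReg K c.1 c.2 0 → false ∈ f c)

theorem undecidable_of_family {α : Type} [Primcodable α] {f : α →. Bool} (hf : Partrec f)
    {P : ℕ → Prop} {F : ℕ → α} (hF : Computable F) (h1 : ∀ n, ¬ P n → true ∈ f (F n))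
    (h2 : ∀ n, P n → false ∈ f (F n)) : ComputablePred P := by
  classical
  have h3 : Partrec fun n => f (F n) := hf.comp hF
  have h4 : ∀ n, f (F n) = Part.some (decide ¬ P n) := by
    intro n
    by_cases h : P n
    · rw [Part.eq_some_iff]
      simpa [h] using h2 n h
    · rw [Part.eq_some_iff]
      simpa [h] using h1 n h
  have h5 : Computable fun n => decide ¬ P n := h3.of_eq h4
  have h6 : ComputablePred fun n => ¬ P n := ⟨inferInstance, h5⟩
  have h7 := h6.not
  simpa only [not_not] using h7

/-- No algorithm decides, given a Koszul algebra `R` and a graded `R`-module `M` generated in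
degree `0` with `M₁ ≠ 0` and `Mₑ = 0` for `e > 1`, whether `reg M = 0`. This holds over every
field `K`, for inputs with integer coefficients, and already for one fixed algebra `R`, which is
Koszul over every field. -/
theorem result :
    (∀ (K : Type) [Field K], ¬ ∃ f : RingCode × ModCode →. Bool, Partrec f ∧ Decides K f) ∧
    ∃ ρ : RingCode, ∀ (K : Type) [Field K], Koszul K ρ ∧
      ¬ ∃ f : ModCode →. Bool, Partrec f ∧ ∀ d : ModCode, Valid K ρ d →
        (HasReg K ρ d 0 → true ∈ f d) ∧ (¬ HasReg K ρ d 0 → false ∈ f d) := by
  obtain ⟨S, _, _, Pr, κ, u, hP, hu, hno⟩ := Src.exists_source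
  have key : ∀ (K : Type) [Field K], ¬ ∃ f : ModCode →. Bool, Partrec f ∧
      ∀ d : ModCode, Valid K (ringS S) d →
        (HasReg K (ringS S) d 0 → true ∈ f d) ∧ (¬ HasReg K (ringS S) d 0 → false ∈ f d) := by
    rintro K _ ⟨f, hf, hd⟩
    refine hno (undecidable_of_family hf (modS_computable κ hP hu) (fun n hn => ?_)
      (fun n hn => ?_))
    · exact (hd _ (main κ hP K (u n)).1).1 ((main κ hP K (u n)).2.2 hn)
    · exact (hd _ (main κ hP K (u n)).1).2 (fun h => (main κ hP K (u n)).2.1 h hn)
  refine ⟨?_, ringS S, fun K _ => ⟨koszul_ringS K, key K⟩⟩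
  rintro K _ ⟨f, hf, hd⟩
  refine key K ⟨fun d => f (ringS S, d), hf.comp (Computable.pair (Computable.const _)
    Computable.id), fun d hv => hd (ringS S, d) hv⟩

end Pool.Agent.Results.MP_fc7d68_al.Undecidable
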